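import Mathlib

set_option autoImplicit false

open Filter Topology

namespace Pool.Agent.Results.MP_f087b4_co.DensityNearHalf

section Definitions

universe u

variable {G : Type u} [Group G]

open Classical in
/-- `Φ` is a left Folner sequence: its members are nonempty finite sets and
`|gΦ_N ∩ Φ_N| / |Φ_N| → 1` for every `g`. -/
def IsLeftFolner (Φ : ℕ → Finset G) : Prop :=
  (∀ N, (Φ N).Nonempty) ∧ ∀ g : G, Tendsto
    (fun N => ((((Φ N).image (fun x => g * x)) ∩ Φ N).card : ℝ) / (Φ N).card) atTop (𝓝 1)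

open Classical in
/-- `Φ` is a right Folner sequence: its members are nonempty finite sets and
`|Φ_N g ∩ Φ_N| / |Φ_N| → 1` for every `g`. -/
def IsRightFolner (Φ : ℕ → Finset G) : Prop :=
  (∀ N, (Φ N).Nonempty) ∧ ∀ g : G, Tendsto
    (fun N => ((((Φ N).image (fun x => x * g)) ∩ Φ N).card : ℝ) / (Φ N).card) atTop (𝓝 1)

open Classical in
/-- `|A ∩ Φ_N| / |Φ_N|` -/
noncomputable def share (Φ : ℕ → Finset G) (A : Set G) (N : ℕ) : ℝ :=
  (((Φ N).filter (fun x => x ∈ A)).card : ℝ) / (Φ N).card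

/-- the upper density `limsup_N |A ∩ Φ_N| / |Φ_N|` -/
noncomputable def upperDensity (Φ : ℕ → Finset G) (A : Set G) : ℝ :=
  limsup (fun N => share Φ A N) atTop

/-- positive upper Banach density: positive upper density along some two-sided Folner sequence -/
def PosUpperBanachDensity (A : Set G) : Prop :=
  ∃ Φ : ℕ → Finset G, IsLeftFolner Φ ∧ IsRightFolner Φ ∧ 0 < upperDensity Φ A

/-- square absolutely continuous groups -/
def SquareAbsCont (G : Type u) [Group G] : Prop :=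
  ∃ Φ Ψ : ℕ → Finset G, IsLeftFolner Φ ∧ IsLeftFolner Ψ ∧
    ∀ ε : ℝ, 0 < ε → ∃ δ : ℝ, 0 < δ ∧ ∀ u : G → ℝ, (∀ g, 0 ≤ u g ∧ u g ≤ 1) →
      limsup (fun N => (∑ g ∈ Φ N, u g) / (Φ N).card) atTop < δ →
      limsup (fun N => (∑ g ∈ Ψ N, u (g ^ 2)) / (Ψ N).card) atTop < ε

/-- `B ⊙ B = {b c : b, c ∈ B, b ≠ c}` -/
def odot (B : Set G) : Set G := {x | ∃ b ∈ B, ∃ c ∈ B, b ≠ c ∧ x = b * c}

/-- the two-sided shift `t⁻¹ A r⁻¹ = {t⁻¹ a r⁻¹ : a ∈ A}` -/
def shift (t r : G) (A : Set G) : Set G := (fun a => t⁻¹ * a * r⁻¹) '' A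

end Definitions

/-! ### The group -/

variable (p : ℕ)

/-- the block `k` of the first component: the vector space `F_p^(k+1)` -/
abbrev U (k : ℕ) : Type := Fin (k + 1) → ZMod p

/-- the block `k` of the second component: `(k+1) × (k+2)` matrices over `F_p` -/
abbrev T (k : ℕ) : Type := Matrix (Fin (k + 1)) (Fin (k + 2)) (ZMod p)

/-- pairs `(v, t)` with `v ∈ Π U k` and `t ∈ Π T k` -/
@[ext] structure Hat where
  v : ∀ k, U p k
  t : ∀ k, T p k

variable {p}

namespace Hat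

instance : Mul (Hat p) :=
  ⟨fun a b => ⟨fun k => a.v k + b.v k,
    fun k => a.t k + b.t k + Matrix.vecMulVec (a.v k) (b.v (k + 1))⟩⟩
instance : One (Hat p) := ⟨⟨fun _ => 0, fun _ => 0⟩⟩
instance : Inv (Hat p) :=
  ⟨fun a => ⟨fun k => - a.v k, fun k => - a.t k + Matrix.vecMulVec (a.v k) (a.v (k + 1))⟩⟩

@[simp] theorem mul_v (a b : Hat p) (k : ℕ) : (a * b).v k = a.v k + b.v k := rfl
@[simp] theorem mul_t (a b : Hat p) (k : ℕ) :
    (a * b).t k = a.t k + b.t k + Matrix.vecMulVec (a.v k) (b.v (k + 1)) := rfl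
@[simp] theorem one_v (k : ℕ) : (1 : Hat p).v k = 0 := rfl
@[simp] theorem one_t (k : ℕ) : (1 : Hat p).t k = 0 := rfl
@[simp] theorem inv_v (a : Hat p) (k : ℕ) : (a⁻¹).v k = - a.v k := rfl
@[simp] theorem inv_t (a : Hat p) (k : ℕ) :
    (a⁻¹).t k = - a.t k + Matrix.vecMulVec (a.v k) (a.v (k + 1)) := rfl

theorem ext' {a b : Hat p} (h1 : ∀ k, a.v k = b.v k) (h2 : ∀ k, a.t k = b.t k) : a = b :=
  Hat.ext (funext h1) (funext h2)

instance : Group (Hat p) :=
  Group.ofLeftAxioms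
    (by
      intro a b c
      refine ext' (fun k => ?_) (fun k => ?_)
      · simp [add_assoc]
      · ext i j
        simp only [mul_t, mul_v, Matrix.add_apply, Matrix.vecMulVec_apply, Pi.add_apply]
        ring)
    (by
      intro a
      refine ext' (fun k => ?_) (fun k => ?_)
      · simp
      · ext i j
        simp)
    (by
      intro a
      refine ext' (fun k => ?_) (fun k => ?_)
      · simp
      · ext i j
        simp [Matrix.vecMulVec_apply])

theorem pow_v (a : Hat p) (n k : ℕ) : (a ^ n).v k = (n : ZMod p) • a.v k := by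
  induction n with
  | zero => simp
  | succ n ih =>
    rw [pow_succ, mul_v, ih]
    push_cast
    rw [add_smul, one_smul]

theorem pow_t (a : Hat p) (n k : ℕ) : (a ^ n).t k = (n : ZMod p) • a.t k +
    ((n.choose 2 : ℕ) : ZMod p) • Matrix.vecMulVec (a.v k) (a.v (k + 1)) := by
  induction n with
  | zero => simp
  | succ n ih =>
    rw [pow_succ, mul_t, ih, pow_v]
    ext i j
    simp only [Matrix.add_apply, Matrix.smul_apply, Matrix.vecMulVec_apply, Pi.smul_apply,
      smul_eq_mul, Nat.choose_succ_succ' n 1, Nat.choose_one_right]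
    push_cast
    ring

end Hat

variable (p) in
/-- the group `G`: pairs `(v, t)` with only finitely many nonzero blocks -/
def Fin0 : Subgroup (Hat p) where
  carrier := {a | ∃ N, ∀ k, N ≤ k → a.v k = 0 ∧ a.t k = 0}
  mul_mem' := by
    rintro a b ⟨N, hN⟩ ⟨M, hM⟩
    refine ⟨max N M, fun k hk => ?_⟩
    have h1 := hN k (le_trans (le_max_left _ _) hk)
    have h2 := hM k (le_trans (le_max_right _ _) hk)
    refine ⟨?_, ?_⟩
    · simp [h1.1, h2.1]
    · ext i j
      simp [h1.1, h1.2, h2.2]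
  one_mem' := ⟨0, fun k _ => ⟨rfl, rfl⟩⟩
  inv_mem' := by
    rintro a ⟨N, hN⟩
    refine ⟨N, fun k hk => ?_⟩
    have h1 := hN k hk
    refine ⟨?_, ?_⟩
    · simp [h1.1]
    · ext i j
      simp [h1.1, h1.2]

variable (p) in
/-- the group as a type -/
abbrev Gp : Type := ↥(Fin0 p)

/-- `g` lies in the finite subgroup of level `N` -/
def Lev (N : ℕ) (g : Gp p) : Prop := (∀ k, N < k → g.1.v k = 0) ∧ (∀ k, N ≤ k → g.1.t k = 0)

theorem Lev.mono {N M : ℕ} (h : N ≤ M) {g : Gp p} (hg : Lev N g) : Lev M g :=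
  ⟨fun k hk => hg.1 k (by omega), fun k hk => hg.2 k (by omega)⟩

theorem exists_lev (g : Gp p) : ∃ N, Lev N g := by
  obtain ⟨N, hN⟩ := g.2
  exact ⟨N, fun k hk => (hN k hk.le).1, fun k hk => (hN k hk).2⟩

theorem Lev.mul {N : ℕ} {g h : Gp p} (hg : Lev N g) (hh : Lev N h) : Lev N (g * h) := by
  refine ⟨fun k hk => ?_, fun k hk => ?_⟩
  · change g.1.v k + h.1.v k = 0
    rw [hg.1 k hk, hh.1 k hk, add_zero]
  · change g.1.t k + h.1.t k + Matrix.vecMulVec (g.1.v k) (h.1.v (k + 1)) = 0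
    rw [hg.2 k hk, hh.2 k hk, hh.1 (k + 1) (by omega)]
    ext i j
    simp [Matrix.vecMulVec_apply]

theorem Lev.inv {N : ℕ} {g : Gp p} (hg : Lev N g) : Lev N g⁻¹ := by
  refine ⟨fun k hk => ?_, fun k hk => ?_⟩
  · change - g.1.v k = 0
    rw [hg.1 k hk, neg_zero]
  · change - g.1.t k + Matrix.vecMulVec (g.1.v k) (g.1.v (k + 1)) = 0
    rw [hg.2 k hk, hg.1 (k + 1) (by omega)]
    ext i j
    simp [Matrix.vecMulVec_apply]

/-- extension by zero -/
def E (N : ℕ) (c : (∀ k : Fin (N + 1), U p k) × (∀ k : Fin N, T p k)) : Gp p :=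
  ⟨⟨fun k => if h : k < N + 1 then c.1 ⟨k, h⟩ else 0,
    fun k => if h : k < N then c.2 ⟨k, h⟩ else 0⟩,
    ⟨N + 1, fun k hk => ⟨by simp only; rw [dif_neg (by omega)],
      by simp only; rw [dif_neg (by omega)]⟩⟩⟩

theorem E_injective (N : ℕ) : Function.Injective (E (p := p) N) := by
  rintro ⟨a, b⟩ ⟨a', b'⟩ h
  have h0 := congrArg Subtype.val h
  have h1 := congrArg Hat.v h0
  have h2 := congrArg Hat.t h0
  refine Prod.ext (funext fun k => ?_) (funext fun k => ?_)
  · have := congrFun h1 k.1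
    simp only [E, dif_pos k.2] at this
    exact this
  · have := congrFun h2 k.1
    simp only [E, dif_pos k.2] at this
    exact this

theorem E_lev (N : ℕ) (c : (∀ k : Fin (N + 1), U p k) × (∀ k : Fin N, T p k)) :
    Lev N (E N c) := by
  refine ⟨fun k hk => ?_, fun k hk => ?_⟩
  · simp only [E]; rw [dif_neg (by omega)]
  · simp only [E]; rw [dif_neg (by omega)]

theorem exists_E {N : ℕ} {g : Gp p} (hg : Lev N g) : ∃ c, E N c = g := by
  refine ⟨(fun k => g.1.v k, fun k => g.1.t k), ?_⟩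
  apply Subtype.ext
  refine Hat.ext' (fun k => ?_) (fun k => ?_)
  · simp only [E]
    split_ifs with h
    · rfl
    · exact (hg.1 k (by omega)).symm
  · simp only [E]
    split_ifs with h
    · rfl
    · exact (hg.2 k (by omega)).symm

variable [hp : Fact p.Prime]

/-- the Folner sequence of finite subgroups -/
noncomputable def Φ (N : ℕ) : Finset (Gp p) := Finset.univ.map ⟨E N, E_injective N⟩

theorem mem_Φ {N : ℕ} {g : Gp p} : g ∈ Φ N ↔ Lev N g := by
  unfold Φ
  simp only [Finset.mem_map, Finset.mem_univ, true_and, Function.Embedding.coeFn_mk]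
  exact ⟨fun ⟨c, hc⟩ => hc ▸ E_lev N c, exists_E⟩

theorem Φ_nonempty (N : ℕ) : (Φ (p := p) N).Nonempty :=
  ⟨1, mem_Φ.2 ⟨fun _ _ => rfl, fun _ _ => rfl⟩⟩

instance : Countable (Gp p) := by
  have h : (Set.univ : Set (Gp p)) = ⋃ N, ((Φ (p := p) N : Finset (Gp p)) : Set (Gp p)) := by
    ext g
    simp only [Set.mem_univ, Set.mem_iUnion, Finset.mem_coe, true_iff]
    obtain ⟨N, hN⟩ := exists_lev g
    exact ⟨N, mem_Φ.2 hN⟩
  have h2 : (Set.univ : Set (Gp p)).Countable := by
    rw [h]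
    exact Set.countable_iUnion (fun N => (Φ (p := p) N).countable_toSet)
  exact Set.countable_univ_iff.1 h2

theorem card_left [DecidableEq (Gp p)] {N : ℕ} {g : Gp p} (hg : Lev N g) :
    ((((Φ N).image (fun x => g * x)) ∩ Φ N).card : ℝ) / (Φ (p := p) N).card = 1 := by
  have h1 : (Φ N).image (fun x => g * x) ⊆ Φ N := by
    intro y hy
    obtain ⟨x, hx, rfl⟩ := Finset.mem_image.1 hy
    exact mem_Φ.2 (hg.mul (mem_Φ.1 hx))
  have h2 : ((Φ N).image (fun x => g * x)).card = (Φ (p := p) N).card :=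
    Finset.card_image_of_injective _ (mul_right_injective g)
  rw [Finset.inter_eq_left.2 h1, h2, div_self]
  have := (Φ_nonempty (p := p) N).card_pos
  positivity

theorem card_right [DecidableEq (Gp p)] {N : ℕ} {g : Gp p} (hg : Lev N g) :
    ((((Φ N).image (fun x => x * g)) ∩ Φ N).card : ℝ) / (Φ (p := p) N).card = 1 := by
  have h1 : (Φ N).image (fun x => x * g) ⊆ Φ N := by
    intro y hy
    obtain ⟨x, hx, rfl⟩ := Finset.mem_image.1 hy
    exact mem_Φ.2 ((mem_Φ.1 hx).mul hg)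
  have h2 : ((Φ N).image (fun x => x * g)).card = (Φ (p := p) N).card :=
    Finset.card_image_of_injective _ (mul_left_injective g)
  rw [Finset.inter_eq_left.2 h1, h2, div_self]
  have := (Φ_nonempty (p := p) N).card_pos
  positivity

theorem Φ_left : IsLeftFolner (Φ (p := p)) := by
  refine ⟨Φ_nonempty, fun g => ?_⟩
  obtain ⟨M, hM⟩ := exists_lev g
  refine tendsto_const_nhds.congr' ?_
  filter_upwards [eventually_ge_atTop M] with N hN
  exact (@card_left p _ (fun a b => Classical.propDecidable (a = b)) N g (hM.mono hN)).symm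

theorem Φ_right : IsRightFolner (Φ (p := p)) := by
  refine ⟨Φ_nonempty, fun g => ?_⟩
  obtain ⟨M, hM⟩ := exists_lev g
  refine tendsto_const_nhds.congr' ?_
  filter_upwards [eventually_ge_atTop M] with N hN
  exact (@card_right p _ (fun a b => Classical.propDecidable (a = b)) N g (hM.mono hN)).symm

/-- the square root in the group -/
noncomputable def rt (g : Gp p) : Gp p :=
  ⟨⟨fun k => (2 : ZMod p)⁻¹ • g.1.v k, fun k => (2 : ZMod p)⁻¹ • (g.1.t k -
      ((2 : ZMod p)⁻¹ * (2 : ZMod p)⁻¹) • Matrix.vecMulVec (g.1.v k) (g.1.v (k + 1)))⟩, by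
    obtain ⟨N, hN⟩ := g.2
    refine ⟨N, fun k hk => ⟨?_, ?_⟩⟩
    · simp only
      rw [(hN k hk).1, smul_zero]
    · simp only
      rw [(hN k hk).1, (hN k hk).2]
      ext i j
      simp [Matrix.vecMulVec_apply]⟩

theorem Lev.rt {N : ℕ} {g : Gp p} (hg : Lev N g) : Lev N (rt g) := by
  refine ⟨fun k hk => ?_, fun k hk => ?_⟩
  · change (2 : ZMod p)⁻¹ • g.1.v k = 0
    rw [hg.1 k hk, smul_zero]
  · change (2 : ZMod p)⁻¹ • (g.1.t k -
      ((2 : ZMod p)⁻¹ * (2 : ZMod p)⁻¹) • Matrix.vecMulVec (g.1.v k) (g.1.v (k + 1))) = 0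
    rw [hg.2 k hk, hg.1 (k + 1) (by omega)]
    ext i j
    simp [Matrix.vecMulVec_apply]

theorem two_mul_half (hp2 : p ≠ 2) : (2 : ZMod p) * (2 : ZMod p)⁻¹ = 1 := by
  apply mul_inv_cancel₀
  intro h
  have h' : ((2 : ℕ) : ZMod p) = 0 := by exact_mod_cast h
  rw [ZMod.natCast_eq_zero_iff] at h'
  exact hp2 ((Nat.prime_dvd_prime_iff_eq hp.out Nat.prime_two).1 h')

theorem rt_sq (hp2 : p ≠ 2) (g : Gp p) : (rt g) ^ 2 = g := by
  have h2 := two_mul_half hp2
  apply Subtype.ext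
  refine Hat.ext' (fun k => ?_) (fun k => ?_)
  · rw [Subgroup.coe_pow, Hat.pow_v]
    ext i
    change ((2 : ℕ) : ZMod p) * ((2 : ZMod p)⁻¹ * g.1.v k i) = g.1.v k i
    push_cast
    linear_combination (g.1.v k i) * h2
  · rw [Subgroup.coe_pow, Hat.pow_t]
    ext i j
    simp only [rt, Matrix.add_apply, Matrix.smul_apply, Matrix.sub_apply, Matrix.vecMulVec_apply,
      Pi.smul_apply, smul_eq_mul, Nat.choose_self]
    push_cast
    generalize (2 : ZMod p)⁻¹ = h at h2 ⊢
    linear_combination (g.1.t k i j - h * h * g.1.v k i * g.1.v (k + 1) j) * h2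

theorem sq_rt (hp2 : p ≠ 2) (g : Gp p) : rt (g ^ 2) = g := by
  have h2 := two_mul_half hp2
  apply Subtype.ext
  refine Hat.ext' (fun k => ?_) (fun k => ?_)
  · change (2 : ZMod p)⁻¹ • (g ^ 2).1.v k = g.1.v k
    rw [Subgroup.coe_pow, Hat.pow_v]
    ext i
    simp only [Pi.smul_apply, smul_eq_mul]
    push_cast
    linear_combination (g.1.v k i) * h2
  · change (2 : ZMod p)⁻¹ • ((g ^ 2).1.t k - ((2 : ZMod p)⁻¹ * (2 : ZMod p)⁻¹) •
      Matrix.vecMulVec ((g ^ 2).1.v k) ((g ^ 2).1.v (k + 1))) = g.1.t k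
    rw [Subgroup.coe_pow, Hat.pow_v, Hat.pow_v, Hat.pow_t]
    ext i j
    simp only [Matrix.add_apply, Matrix.smul_apply, Matrix.sub_apply, Matrix.vecMulVec_apply,
      Pi.smul_apply, smul_eq_mul, Nat.choose_self]
    push_cast
    generalize (2 : ZMod p)⁻¹ = h at h2 ⊢
    linear_combination (g.1.t k i j - h * g.1.v k i * g.1.v (k + 1) j * (2 * h + 1)) * h2

theorem sac (hp2 : p ≠ 2) : SquareAbsCont (Gp p) := by
  refine ⟨Φ, Φ, Φ_left, Φ_left, fun ε hε => ⟨ε, hε, fun u _ hu => ?_⟩⟩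
  have h : ∀ N, ∑ g ∈ Φ N, u (g ^ 2) = ∑ g ∈ Φ (p := p) N, u g := by
    intro N
    refine Finset.sum_nbij' (fun g => g ^ 2) (fun g => rt g) ?_ ?_ ?_ ?_ ?_
    · intro g hg
      rw [pow_two]
      exact mem_Φ.2 ((mem_Φ.1 hg).mul (mem_Φ.1 hg))
    · exact fun g hg => mem_Φ.2 (mem_Φ.1 hg).rt
    · exact fun g _ => sq_rt hp2 g
    · exact fun g _ => rt_sq hp2 g
    · exact fun g _ => rfl
  simp only [h]
  exact hu

/-- the group has exponent `p` -/
theorem exponent (hp2 : p ≠ 2) (g : Gp p) : g ^ p = 1 := by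
  have hc : ((p.choose 2 : ℕ) : ZMod p) = 0 := by
    rw [ZMod.natCast_eq_zero_iff]
    exact hp.out.dvd_choose_self (by norm_num) (lt_of_le_of_ne hp.out.two_le (Ne.symm hp2))
  apply Subtype.ext
  refine Hat.ext' (fun k => ?_) (fun k => ?_)
  · rw [Subgroup.coe_pow, Hat.pow_v, ZMod.natCast_self, zero_smul]
    rfl
  · rw [Subgroup.coe_pow, Hat.pow_t, ZMod.natCast_self, hc, zero_smul, zero_smul, add_zero]
    rfl

/-- all commutators are central: the group is nilpotent of class two -/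
theorem class_two (a b c : Gp p) :
    (a * b * a⁻¹ * b⁻¹) * c = c * (a * b * a⁻¹ * b⁻¹) := by
  have hv : ∀ k, (a * b * a⁻¹ * b⁻¹ : Gp p).1.v k = 0 := by
    intro k
    change a.1.v k + b.1.v k + - a.1.v k + - b.1.v k = 0
    abel
  generalize a * b * a⁻¹ * b⁻¹ = w at hv ⊢
  apply Subtype.ext
  refine Hat.ext' (fun k => ?_) (fun k => ?_)
  · change w.1.v k + c.1.v k = c.1.v k + w.1.v k
    rw [add_comm]
  · change w.1.t k + c.1.t k + Matrix.vecMulVec (w.1.v k) (c.1.v (k + 1)) =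
      c.1.t k + w.1.t k + Matrix.vecMulVec (c.1.v k) (w.1.v (k + 1))
    rw [hv, hv]
    ext i j
    simp [Matrix.vecMulVec_apply, add_comm]

/-! ### The set -/

/-- a vector `ℓ` with `ℓ · u = 1` for nonzero `u` -/
theorem exists_dual {n : ℕ} (u : Fin n → ZMod p) (hu : u ≠ 0) : ∃ l : Fin n → ZMod p, l ⬝ᵥ u = 1 := by
  obtain ⟨i, hi⟩ := Function.ne_iff.1 hu
  refine ⟨Pi.single i (u i)⁻¹, ?_⟩
  rw [single_dotProduct]
  exact inv_mul_cancel₀ hi

open Classical in
/-- a chosen vector `ℓ` with `ℓ · u = 1` -/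
noncomputable def dual {n : ℕ} (u : Fin n → ZMod p) : Fin n → ZMod p :=
  if h : u ≠ 0 then (exists_dual u h).choose else 0

theorem dual_spec {n : ℕ} (u : Fin n → ZMod p) (hu : u ≠ 0) : dual u ⬝ᵥ u = 1 := by
  unfold dual
  rw [dif_pos hu]
  exact (exists_dual u hu).choose_spec

/-- the functional `Ω_v(t)`, a sum over the links between consecutive blocks up to `r` -/
noncomputable def Om (r : ℕ) (v : ∀ k, U p k) (t : ∀ k, T p k) : ZMod p :=
  ∑ k ∈ Finset.range r, dual (v k) ⬝ᵥ (t k).mulVec (dual (v (k + 1)))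

/-- the set `A`: all `(v, t)` of some exact level `r`, such that all blocks `v_0, ..., v_r` are
nonzero, and the residue of `Ω_v(t)` is one of `0, 1, ..., (p-3)/2` -/
def A : Set (Gp p) :=
  {g | ∃ r, Lev r g ∧ (∀ k, k ≤ r → g.1.v k ≠ 0) ∧ 2 * (Om r g.1.v g.1.t).val + 1 < p}

/-! ### No common shift -/

theorem dot_vecMulVec {m n : ℕ} (l a : Fin m → ZMod p) (b c : Fin n → ZMod p) :
    l ⬝ᵥ (Matrix.vecMulVec a b).mulVec c = (l ⬝ᵥ a) * (c ⬝ᵥ b) := by
  have h : (Matrix.vecMulVec a b).mulVec c = (c ⬝ᵥ b) • a := by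
    ext i
    simp only [Matrix.mulVec, dotProduct, Matrix.vecMulVec_apply, Pi.smul_apply, smul_eq_mul,
      Finset.sum_mul]
    exact Finset.sum_congr rfl (fun j _ => by ring)
  rw [h, dotProduct_smul, smul_eq_mul, mul_comm]

/-- `Ω_v` of a product: the cross term is `Σ_k s_k(a) s_{k+1}(b)` with `s_k(w) = ℓ_k · w_k` -/
theorem Om_mul (r : ℕ) (v : ∀ k, U p k) (a b : Hat p) :
    Om r v (a * b).t = Om r v a.t + Om r v b.t +
      ∑ k ∈ Finset.range r, (dual (v k) ⬝ᵥ a.v k) * (dual (v (k + 1)) ⬝ᵥ b.v (k + 1)) := by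
  unfold Om
  rw [← Finset.sum_add_distrib, ← Finset.sum_add_distrib]
  refine Finset.sum_congr rfl (fun k _ => ?_)
  rw [Hat.mul_t, Matrix.add_mulVec, Matrix.add_mulVec, dotProduct_add, dotProduct_add,
    dot_vecMulVec]

/-- the arithmetic identity behind the example: twice the difference of the two values is `1` -/
theorem chain (r m : ℕ) (B X Z : ℕ → ZMod p) (h1 : ∀ k, k ≤ r → B k + X k + Z k = 1)
    (h2 : B r = 0) (h4 : ∀ k, k ≤ m + 1 → B k = Z k) (h5 : ∀ k, m < k → X k = 0)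
    (hmr : m + 1 < r) :
    2 * (∑ k ∈ Finset.range r, (B k * X (k + 1) + (B k + X k) * Z (k + 1)) -
      ∑ k ∈ Finset.range r, (Z k * X (k + 1) + (Z k + X k) * B (k + 1))) = 1 := by
  rw [← Finset.sum_sub_distrib]
  have key : ∀ k ∈ Finset.range r, (B k * X (k + 1) + (B k + X k) * Z (k + 1)) -
      (Z k * X (k + 1) + (Z k + X k) * B (k + 1)) =
      (if k ≤ m then B (m + 1) else B k) - (if k + 1 ≤ m then B (m + 1) else B (k + 1)) := by
    intro k hk
    have hk' : k < r := Finset.mem_range.1 hk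
    have e1 := h1 k hk'.le
    have e2 := h1 (k + 1) hk'
    by_cases hm : k ≤ m
    · rw [if_pos hm, ← h4 k (by omega), ← h4 (k + 1) (by omega)]
      by_cases hm2 : k + 1 ≤ m
      · rw [if_pos hm2]
        ring
      · rw [if_neg hm2]
        have : k = m := by omega
        subst this
        ring
    · rw [if_neg hm, if_neg (by omega), h5 k (by omega), h5 (k + 1) (by omega)]
      rw [h5 k (by omega)] at e1
      rw [h5 (k + 1) (by omega)] at e2
      have z1 : Z k = 1 - B k := by linear_combination e1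
      have z2 : Z (k + 1) = 1 - B (k + 1) := by linear_combination e2
      rw [z1, z2]
      ring
  rw [Finset.sum_congr rfl key, Finset.sum_range_sub', if_pos (Nat.zero_le m),
    if_neg (by omega), h2]
  have e3 := h1 (m + 1) hmr.le
  rw [h5 (m + 1) (by omega), ← h4 (m + 1) le_rfl] at e3
  linear_combination e3

/-- values which differ by one half are not both residues below `(p-1)/2` -/
theorem val_sep {a b : ZMod p} (hab : 2 * (a - b) = 1) (ha : 2 * a.val + 1 < p)
    (hb : 2 * b.val + 1 < p) : False := by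
  have h1 : ((2 * a.val : ℕ) : ZMod p) = ((2 * b.val + 1 : ℕ) : ZMod p) := by
    push_cast
    rw [ZMod.natCast_zmod_val, ZMod.natCast_zmod_val]
    linear_combination hab
  rw [ZMod.natCast_eq_natCast_iff', Nat.mod_eq_of_lt (by omega), Nat.mod_eq_of_lt hb] at h1
  omega

theorem no_pair {b x z : Gp p} {m M : ℕ} (hmM : m + 1 ≤ M) (hx : Lev m x) (hb : Lev M b)
    (hz : ∃ k, M < k ∧ z.1.v k ≠ 0) (hc : ∀ k, k ≤ m + 1 → b.1.v k = z.1.v k)
    (h1 : b * x * z ∈ A) (h2 : z * x * b ∈ A) : False := by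
  obtain ⟨r, ⟨hr1, _⟩, hr2, hr3⟩ := h1
  obtain ⟨r', ⟨hr1', _⟩, hr2', hr3'⟩ := h2
  have v1 : ∀ k, (b * x * z).1.v k = b.1.v k + x.1.v k + z.1.v k := fun k => rfl
  have v2 : ∀ k, (z * x * b).1.v k = b.1.v k + x.1.v k + z.1.v k := by
    intro k
    change z.1.v k + x.1.v k + b.1.v k = _
    abel
  have vv : (z * x * b).1.v = (b * x * z).1.v := funext (fun k => by rw [v1, v2])
  have hrr : r' = r := by
    apply le_antisymm
    · by_contra hlt
      have := hr2' r' le_rfl
      rw [vv] at this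
      exact this (hr1 r' (by omega))
    · by_contra hlt
      have := hr2 r le_rfl
      rw [← vv] at this
      exact this (hr1' r (by omega))
  subst hrr
  rw [vv] at hr3'
  have hMr : M < r' := by
    obtain ⟨k, hk, hk2⟩ := hz
    by_contra hle
    have h0 := hr1 k (by omega)
    rw [v1, hb.1 k hk, hx.1 k (by omega), zero_add, zero_add] at h0
    exact hk2 h0
  set v := (b * x * z).1.v with hv
  have hch := chain r' m (fun k => dual (v k) ⬝ᵥ b.1.v k) (fun k => dual (v k) ⬝ᵥ x.1.v k)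
    (fun k => dual (v k) ⬝ᵥ z.1.v k)
    (fun k hk => by
      rw [← dotProduct_add, ← dotProduct_add, ← v1 k]
      exact dual_spec _ (hr2 k hk))
    (by rw [hb.1 r' hMr, dotProduct_zero])
    (fun k hk => by rw [hc k hk])
    (fun k hk => by rw [hx.1 k hk, dotProduct_zero])
    (by omega)
  have e1 : Om r' v (b * x * z).1.t = Om r' v (b.1 * x.1).t + Om r' v z.1.t + _ :=
    Om_mul r' v (b.1 * x.1) z.1
  rw [Om_mul] at e1
  have e2 : Om r' v (z * x * b).1.t = Om r' v (z.1 * x.1).t + Om r' v b.1.t + _ :=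
    Om_mul r' v (z.1 * x.1) b.1
  rw [Om_mul] at e2
  simp only [Hat.mul_v, dotProduct_add] at e1 e2
  rw [Finset.sum_add_distrib, Finset.sum_add_distrib] at hch
  refine val_sep (a := Om r' v (b * x * z).1.t) (b := Om r' v (z * x * b).1.t) ?_ hr3 hr3'
  rw [e1, e2]
  rw [← hch]
  ring

theorem no_infinite (B : Set (Gp p)) (hB : B.Infinite) (t r : Gp p) : ¬ odot B ⊆ shift t r A := by
  intro hsub
  have hmem : ∀ b ∈ B, ∀ c ∈ B, b ≠ c → t * (b * c) * r ∈ A (p := p) := by
    intro b hb c hc hbc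
    obtain ⟨a, ha, hae⟩ := hsub ⟨b, hb, c, hc, hbc, rfl⟩
    simp only at hae
    rw [← hae]
    have : t * (t⁻¹ * a * r⁻¹) * r = a := by group
    rw [this]
    exact ha
  set x : Gp p := r⁻¹ * t⁻¹ with hx
  set S : Set (Gp p) := (fun b => t * b * r) '' B with hS
  have hinj : Function.Injective (fun b : Gp p => t * b * r) := by
    intro b c h
    simpa using h
  have hSinf : S.Infinite := hB.image hinj.injOn
  have hSA : ∀ b ∈ S, ∀ c ∈ S, b ≠ c → b * x * c ∈ A (p := p) := by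
    rintro _ ⟨b, hb, rfl⟩ _ ⟨c, hc, rfl⟩ hbc
    have : (t * b * r) * x * (t * c * r) = t * (b * c) * r := by
      rw [hx]; group
    simp only
    rw [this]
    exact hmem b hb c hc (fun h => hbc (by rw [h]))
  obtain ⟨m, hm⟩ := exists_lev x
  have : Infinite ↥S := hSinf.to_subtype
  obtain ⟨c, hc⟩ := Finite.exists_infinite_fiber
    (fun g : ↥S => (fun k : Fin (m + 2) => g.1.1.v k : ∀ k : Fin (m + 2), U p k))
  obtain ⟨⟨b, hbS⟩, hb⟩ := hc.nonempty
  obtain ⟨M0, hM0⟩ := exists_lev b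
  have hM : Lev (max M0 (m + 1)) b := hM0.mono (le_max_left _ _)
  have hmM : m + 1 ≤ max M0 (m + 1) := le_max_right _ _
  generalize max M0 (m + 1) = M at hM hmM
  by_cases hex : ∃ z : ↥S, (fun k : Fin (m + 2) => z.1.1.v k : ∀ k : Fin (m + 2), U p k) = c ∧
      z.1 ≠ b ∧ ∃ k, M < k ∧ z.1.1.v k ≠ 0
  · obtain ⟨⟨z, hzS⟩, hz1, hz2, hz3⟩ := hex
    refine no_pair hmM hm hM hz3 (fun k hk => ?_) (hSA b hbS z hzS hz2.symm) (hSA z hzS b hbS hz2)
    have e1 := congrFun hb (⟨k, by omega⟩ : Fin (m + 2))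
    have e2 := congrFun hz1 (⟨k, by omega⟩ : Fin (m + 2))
    exact e1.trans e2.symm
  · push Not at hex
    -- all `b x z` lie in a finite set
    have hfin : ((fun g : ↥S => (fun k : Fin (m + 2) => g.1.1.v k : ∀ k : Fin (m + 2), U p k)) ⁻¹'
        {c} : Set ↥S).Finite := by
      refine Set.Finite.subset (Set.Finite.union (Set.finite_singleton (⟨b, hbS⟩ : ↥S))
        (Set.Finite.preimage (f := fun g : ↥S => b * x * g.1) ?_ (Φ M).finite_toSet)) ?_
      · intro g _ h _ hgh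
        apply Subtype.ext
        exact mul_left_cancel hgh
      · intro z hz
        by_cases hzb : z.1 = b
        · left
          exact Subtype.ext hzb
        · right
          have hv := hex z hz hzb
          obtain ⟨r', ⟨hr1, hr1'⟩, hr2, _⟩ := hSA b hbS z.1 z.2 (fun h => hzb h.symm)
          have hle : r' ≤ M := by
            by_contra hlt
            apply hr2 r' le_rfl
            change b.1.v r' + x.1.v r' + z.1.1.v r' = 0
            rw [hM.1 r' (by omega), hm.1 r' (by omega), hv r' (by omega)]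
            simp
          exact mem_Φ.2 (Lev.mono hle ⟨hr1, hr1'⟩)
    exact hc.not_finite hfin.to_subtype

/-! ### Density -/

/-- shift the second component at block `0` by `j (v_0 ⊗ v_1)` -/
def sig (j : ZMod p) (g : Gp p) : Gp p :=
  ⟨⟨g.1.v, fun k => g.1.t k + (if k = 0 then j else 0) • Matrix.vecMulVec (g.1.v k) (g.1.v (k + 1))⟩,
    by
      obtain ⟨N, hN⟩ := g.2
      refine ⟨N + 1, fun k hk => ⟨(hN k (by omega)).1, ?_⟩⟩
      simp only
      rw [if_neg (by omega), zero_smul, (hN k (by omega)).2, add_zero]⟩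

theorem sig_lev (j : ZMod p) {g : Gp p} {N : ℕ} (hg : Lev (N + 1) g) : Lev (N + 1) (sig j g) := by
  refine ⟨fun k hk => hg.1 k hk, fun k hk => ?_⟩
  change g.1.t k + (if k = 0 then j else 0) • Matrix.vecMulVec (g.1.v k) (g.1.v (k + 1)) = 0
  rw [if_neg (by omega), zero_smul, hg.2 k hk, add_zero]

theorem sig_Om (j : ZMod p) {g : Gp p} {N : ℕ} (h0 : g.1.v 0 ≠ 0) (h1 : g.1.v 1 ≠ 0) :
    Om (N + 1) (sig j g).1.v (sig j g).1.t = Om (N + 1) g.1.v g.1.t + j := by
  change Om (N + 1) g.1.v (fun k => g.1.t k +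
    (if k = 0 then j else 0) • Matrix.vecMulVec (g.1.v k) (g.1.v (k + 1))) = _
  unfold Om
  rw [Finset.sum_range_succ', Finset.sum_range_succ']
  simp only [Nat.add_eq_zero_iff, one_ne_zero, and_false, if_false, zero_smul, add_zero, if_true,
    Matrix.add_mulVec, Matrix.smul_mulVec, dotProduct_add, dotProduct_smul, dot_vecMulVec,
    smul_eq_mul, dual_spec _ h0]
  rw [dual_spec _ h1]
  ring

theorem sig_inj (j : ZMod p) : Function.Injective (sig (p := p) j) := by
  intro g h hgh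
  have h0 := congrArg Subtype.val hgh
  have h1 : g.1.v = h.1.v := (congrArg Hat.v h0 : (sig j g).1.v = (sig j h).1.v)
  apply Subtype.ext
  refine Hat.ext' (fun k => by rw [h1]) (fun k => ?_)
  have h2 : g.1.t k + (if k = 0 then j else 0) • Matrix.vecMulVec (g.1.v k) (g.1.v (k + 1)) =
      h.1.t k + (if k = 0 then j else 0) • Matrix.vecMulVec (h.1.v k) (h.1.v (k + 1)) :=
    congrFun (congrArg Hat.t h0) k
  rw [h1] at h2
  exact add_right_cancel h2

open Classical in
/-- elements of level `N` all of whose blocks are nonzero -/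
noncomputable def D (N : ℕ) : Finset (Gp p) := (Φ N).filter (fun g => ∀ k, k ≤ N → g.1.v k ≠ 0)

/-- the number of residues below `(p-1)/2`, shifted -/
theorem card_res {q : ℕ} (hq : p = 2 * q + 1) (a : ZMod p) :
    ((Finset.univ : Finset (ZMod p)).filter (fun j => 2 * (a + j).val + 1 < p)).card = q := by
  have h1 : ((Finset.univ : Finset (ZMod p)).filter (fun j => 2 * (a + j).val + 1 < p)).card =
      ((Finset.univ : Finset (ZMod p)).filter (fun j => 2 * j.val + 1 < p)).card := by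
    refine Finset.card_nbij' (fun j => a + j) (fun j => j - a) ?_ ?_ ?_ ?_
    · intro j hj
      simpa using hj
    · intro j hj
      simpa using hj
    · intro j _
      simp
    · intro j _
      simp
  rw [h1]
  have h2 : ((Finset.univ : Finset (ZMod p)).filter (fun j => 2 * j.val + 1 < p)).card =
      (Finset.range q).card := by
    refine Finset.card_nbij' (fun j => j.val) (fun n => (n : ZMod p)) ?_ ?_ ?_ ?_
    · intro j hj
      simp only [Finset.coe_filter, Finset.mem_univ, true_and, Set.mem_setOf_eq] at hj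
      simp only [Finset.coe_range, Set.mem_Iio]
      omega
    · intro n hn
      simp only [Finset.coe_range, Set.mem_Iio] at hn
      simp only [Finset.coe_filter, Finset.mem_univ, true_and, Set.mem_setOf_eq]
      rw [ZMod.val_natCast, Nat.mod_eq_of_lt (by omega)]
      omega
    · intro j _
      exact ZMod.natCast_zmod_val j
    · intro n hn
      simp only [Finset.coe_range, Set.mem_Iio] at hn
      simp only
      rw [ZMod.val_natCast, Nat.mod_eq_of_lt (by omega)]
  rw [h2, Finset.card_range]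

open Classical in
theorem card_D_le {q : ℕ} (hq : p = 2 * q + 1) (N : ℕ) :
    q * (D (p := p) (N + 1)).card ≤ p * ((Φ (N + 1)).filter (fun g => g ∈ A (p := p))).card := by
  have h1 : ∑ g ∈ D (p := p) (N + 1), ((Finset.univ : Finset (ZMod p)).filter
      (fun j => 2 * (Om (N + 1) g.1.v g.1.t + j).val + 1 < p)).card =
      q * (D (p := p) (N + 1)).card := by
    rw [Finset.sum_congr rfl (fun g _ => card_res hq (Om (N + 1) g.1.v g.1.t)), Finset.sum_const,
      smul_eq_mul, mul_comm]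
  have h2 : ∑ g ∈ D (p := p) (N + 1), ((Finset.univ : Finset (ZMod p)).filter
      (fun j => 2 * (Om (N + 1) g.1.v g.1.t + j).val + 1 < p)).card =
      ∑ j : ZMod p, ((D (p := p) (N + 1)).filter
        (fun g => 2 * (Om (N + 1) g.1.v g.1.t + j).val + 1 < p)).card := by
    simp only [Finset.card_filter]
    exact Finset.sum_comm
  rw [← h1, h2]
  refine (Finset.sum_le_card_nsmul _ _ ((Φ (N + 1)).filter (fun g => g ∈ A (p := p))).card ?_).trans
    (by simp [ZMod.card])
  intro j _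
  refine Finset.card_le_card_of_injOn (sig j) ?_ ((sig_inj j).injOn)
  intro g hg
  simp only [Finset.coe_filter, Set.mem_setOf_eq] at hg
  obtain ⟨hg, hlt⟩ := hg
  obtain ⟨hg1, hg2⟩ := Finset.mem_filter.1 hg
  have hl := mem_Φ.1 hg1
  simp only [Finset.coe_filter, Set.mem_setOf_eq]
  refine ⟨mem_Φ.2 (sig_lev _ hl), N + 1, sig_lev _ hl, hg2, ?_⟩
  rw [sig_Om _ (hg2 0 (by omega)) (hg2 1 (by omega))]
  exact hlt

theorem card_Φ (N : ℕ) : ((Φ (p := p) N).card : ℝ) =
    (∏ k ∈ Finset.range (N + 1), (p : ℝ) ^ (k + 1)) *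
      (Fintype.card (∀ k : Fin N, T p k) : ℝ) := by
  unfold Φ
  rw [Finset.card_map, Finset.card_univ, Fintype.card_prod]
  push_cast
  congr 1
  rw [Fintype.card_pi]
  push_cast
  rw [Finset.prod_range]
  refine Finset.prod_congr rfl (fun k _ => ?_)
  simp [ZMod.card]

open Classical in
theorem card_D (N : ℕ) : ((D (p := p) N).card : ℝ) =
    (∏ k ∈ Finset.range (N + 1), ((p : ℝ) ^ (k + 1) - 1)) *
      (Fintype.card (∀ k : Fin N, T p k) : ℝ) := by
  have h : D N = ((Fintype.piFinset (fun k : Fin (N + 1) => (Finset.univ : Finset (U p k)).erase 0)) ×ˢ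
      (Finset.univ : Finset (∀ k : Fin N, T p k))).map ⟨E N, E_injective N⟩ := by
    ext g
    rw [D, Finset.mem_filter, mem_Φ, Finset.mem_map]
    constructor
    · rintro ⟨h1, h2⟩
      obtain ⟨c, hc⟩ := exists_E h1
      refine ⟨c, ?_, hc⟩
      rw [Finset.mem_product]
      refine ⟨?_, Finset.mem_univ _⟩
      rw [Fintype.mem_piFinset]
      intro k
      rw [Finset.mem_erase]
      refine ⟨?_, Finset.mem_univ _⟩
      have := h2 k (by omega)
      rw [← hc] at this
      simp only [E, dif_pos k.2] at this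
      exact this
    · rintro ⟨c, hc, rfl⟩
      rw [Finset.mem_product, Fintype.mem_piFinset] at hc
      refine ⟨E_lev N c, fun k hk => ?_⟩
      have := (Finset.mem_erase.1 (hc.1 ⟨k, by omega⟩)).1
      simp only [Function.Embedding.coeFn_mk, E]
      rw [dif_pos (by omega)]
      exact this
  rw [h, Finset.card_map, Finset.card_product, Fintype.card_piFinset, Finset.card_univ]
  push_cast
  congr 1
  rw [Finset.prod_range]
  refine Finset.prod_congr rfl (fun k _ => ?_)
  rw [Finset.card_erase_of_mem (Finset.mem_univ _), Finset.card_univ]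
  have h3 : Fintype.card (U p k) = p ^ (k.1 + 1) := by simp [ZMod.card]
  rw [h3, Nat.cast_sub (Nat.one_le_pow _ _ hp.out.pos)]
  push_cast
  ring

/-- `(1 - x) ∏_{k<n} (1 - x^(k+1)) ≥ 1 - 2x` in integral form -/
theorem prod_bound (P : ℝ) (hP : 3 ≤ P) (n : ℕ) :
    (∏ k ∈ Finset.range n, P ^ (k + 1)) * (P - 2 + (P ^ n)⁻¹) ≤
      (P - 1) * ∏ k ∈ Finset.range n, (P ^ (k + 1) - 1) := by
  induction n with
  | zero => simp; linarith
  | succ n ih =>
    rw [Finset.prod_range_succ, Finset.prod_range_succ]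
    set X := ∏ k ∈ Finset.range n, P ^ (k + 1) with hX
    set Y := ∏ k ∈ Finset.range n, (P ^ (k + 1) - 1) with hY
    have hX0 : 0 < X := Finset.prod_pos (fun k _ => by positivity)
    have hy : (1 : ℝ) ≤ P ^ n := one_le_pow₀ (by linarith)
    have hyn : (P ^ (n + 1)) = P ^ n * P := pow_succ _ _
    set y : ℝ := P ^ n with hydef
    rw [hyn]
    have hy0 : 0 < y := by linarith
    have hP0 : 0 < P := by linarith
    have h1 : X * (P - 2 + y⁻¹) * (y * P - 1) ≤ (P - 1) * Y * (y * P - 1) :=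
      mul_le_mul_of_nonneg_right ih (by nlinarith)
    have h2 : X * (y * P) * (P - 2 + (y * P)⁻¹) ≤ X * (P - 2 + y⁻¹) * (y * P - 1) := by
      have e : X * (P - 2 + y⁻¹) * (y * P - 1) - X * (y * P) * (P - 2 + (y * P)⁻¹) =
          X * (1 - y⁻¹) := by
        field_simp
        ring
      have h3 : 0 ≤ 1 - y⁻¹ := by
        have := inv_le_one_of_one_le₀ hy
        linarith
      nlinarith [mul_nonneg hX0.le h3]
    calc X * (y * P) * (P - 2 + (y * P)⁻¹) ≤ X * (P - 2 + y⁻¹) * (y * P - 1) := h2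
      _ ≤ (P - 1) * Y * (y * P - 1) := h1
      _ = (P - 1) * (Y * (y * P - 1)) := by ring

theorem most_le (hp3 : 3 ≤ p) (N : ℕ) :
    ((p : ℝ) - 2) * ((Φ (p := p) N).card : ℝ) ≤ ((p : ℝ) - 1) * ((D (p := p) N).card : ℝ) := by
  rw [card_Φ, card_D]
  have hT : (0 : ℝ) ≤ (Fintype.card (∀ k : Fin N, T p k) : ℝ) := Nat.cast_nonneg _
  have hP : (3 : ℝ) ≤ (p : ℝ) := by exact_mod_cast hp3
  have h := prod_bound (p : ℝ) hP (N + 1)
  have hP0 : 0 < ∏ k ∈ Finset.range (N + 1), (p : ℝ) ^ (k + 1) :=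
    Finset.prod_pos (fun k _ => by positivity)
  have h2 : ((p : ℝ) - 2) * ∏ k ∈ Finset.range (N + 1), (p : ℝ) ^ (k + 1) ≤
      ((p : ℝ) - 1) * ∏ k ∈ Finset.range (N + 1), ((p : ℝ) ^ (k + 1) - 1) := by
    refine le_trans ?_ h
    have : 0 ≤ ((p : ℝ) ^ (N + 1))⁻¹ := by positivity
    nlinarith [mul_nonneg hP0.le this]
  calc _ = (((p : ℝ) - 2) * ∏ k ∈ Finset.range (N + 1), (p : ℝ) ^ (k + 1)) *
        (Fintype.card (∀ k : Fin N, T p k) : ℝ) := by ring
    _ ≤ (((p : ℝ) - 1) * ∏ k ∈ Finset.range (N + 1), ((p : ℝ) ^ (k + 1) - 1)) *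
        (Fintype.card (∀ k : Fin N, T p k) : ℝ) := mul_le_mul_of_nonneg_right h2 hT
    _ = _ := by ring

theorem density (hp2 : p ≠ 2) (N : ℕ) :
    1 / 2 - 1 / (p : ℝ) ≤ share Φ (A (p := p)) (N + 1) := by
  classical
  have hodd : Odd p := hp.out.odd_of_ne_two hp2
  obtain ⟨q, hq⟩ := hodd
  have hp3 : 3 ≤ p := by
    have := hp.out.two_le
    omega
  have h1 := most_le hp3 (N + 1)
  have h2 : (q : ℝ) * ((D (p := p) (N + 1)).card : ℝ) ≤
      (p : ℝ) * (((Φ (N + 1)).filter (fun x => x ∈ A (p := p))).card : ℝ) := by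
    exact_mod_cast card_D_le hq N
  have h0 : (0 : ℝ) < (Φ (p := p) (N + 1)).card := by
    have := (Φ_nonempty (p := p) (N + 1)).card_pos
    positivity
  have hP : (3 : ℝ) ≤ (p : ℝ) := by exact_mod_cast hp3
  have hqr : (p : ℝ) = 2 * q + 1 := by exact_mod_cast hq
  unfold share
  rw [le_div_iff₀ h0]
  have h3 : ((p : ℝ) - 2) * ((Φ (p := p) (N + 1)).card : ℝ) ≤
      2 * ((p : ℝ) * (((Φ (N + 1)).filter (fun x => x ∈ A (p := p))).card : ℝ)) := by
    refine h1.trans ?_
    have : ((p : ℝ) - 1) * ((D (p := p) (N + 1)).card : ℝ) =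
        2 * ((q : ℝ) * ((D (p := p) (N + 1)).card : ℝ)) := by rw [hqr]; ring
    rw [this]
    linarith
  have e : (1 / 2 - 1 / (p : ℝ)) * ((Φ (p := p) (N + 1)).card : ℝ) =
      (((p : ℝ) - 2) * ((Φ (p := p) (N + 1)).card : ℝ)) / (2 * p) := by
    field_simp
  rw [e, div_le_iff₀ (by positivity)]
  calc _ ≤ _ := h3
    _ = _ := by ring_nf

theorem upper {Ψ : ℕ → Finset (Gp p)} {c : ℝ} {S : Set (Gp p)} (hne : ∀ N, (Ψ N).Nonempty)
    (h : ∀ N, c ≤ share Ψ S N) : c ≤ upperDensity Ψ S := by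
  classical
  unfold upperDensity
  refine le_limsup_of_frequently_le ?_ ?_
  · exact (Eventually.of_forall h).frequently
  · refine isBoundedUnder_of ⟨1, fun N => ?_⟩
    have h0 : (0 : ℝ) < (Ψ N).card := by
      have := (hne N).card_pos
      positivity
    unfold share
    rw [div_le_one h0]
    exact Nat.cast_le.2 (Finset.card_le_card (Finset.filter_subset _ _))

instance : Infinite (Gp p) := by
  refine Infinite.of_injective (fun n : ℕ => (⟨⟨fun k => if k = n then 1 else 0, fun _ => 0⟩,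
    ⟨n + 1, fun k hk => ⟨?_, rfl⟩⟩⟩ : Gp p)) ?_
  · simp only
    rw [if_neg (by omega)]
  · intro n m h
    have h1 := congrFun (congrArg Hat.v (congrArg Subtype.val h)) n
    simp only [if_true] at h1
    by_contra hne
    rw [if_neg hne] at h1
    have := congrFun h1 0
    simp at this

/-- the Folner sequence `Φ_1, Φ_2, ...` -/
theorem shift_left : IsLeftFolner (fun N => Φ (p := p) (N + 1)) :=
  ⟨fun N => Φ_left.1 (N + 1), fun g => (Φ_left.2 g).comp (tendsto_add_atTop_nat 1)⟩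

theorem shift_right : IsRightFolner (fun N => Φ (p := p) (N + 1)) :=
  ⟨fun N => Φ_right.1 (N + 1), fun g => (Φ_right.2 g).comp (tendsto_add_atTop_nat 1)⟩

/-- **Q1 is answered in the negative, for sets of density arbitrarily close to one half, and by
groups of every odd prime exponent.** -/
theorem result :
    (∀ p : ℕ, p.Prime → p ≠ 2 → ∃ (G : Type) (_ : Group G), Countable G ∧ Infinite G ∧
      (∀ g : G, g ^ p = 1) ∧ (∀ a b c : G, (a * b * a⁻¹ * b⁻¹) * c = c * (a * b * a⁻¹ * b⁻¹)) ∧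
      SquareAbsCont G ∧ ∃ (A : Set G) (Φ : ℕ → Finset G), IsLeftFolner Φ ∧ IsRightFolner Φ ∧
        (∀ N, 1 / 2 - 1 / (p : ℝ) ≤ share Φ A N) ∧ PosUpperBanachDensity A ∧
        ∀ B : Set G, B.Infinite → ∀ t r : G, ¬ odot B ⊆ shift t r A) ∧
    (∀ ε : ℝ, 0 < ε → ∃ (G : Type) (_ : Group G), Countable G ∧ Infinite G ∧ SquareAbsCont G ∧
      ∃ (A : Set G) (Φ : ℕ → Finset G), IsLeftFolner Φ ∧ IsRightFolner Φ ∧
        1 / 2 - ε ≤ upperDensity Φ A ∧ PosUpperBanachDensity A ∧
        ∀ B : Set G, B.Infinite → ∀ t r : G, ¬ odot B ⊆ shift t r A) := by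
  have main : ∀ p : ℕ, p.Prime → p ≠ 2 → ∃ (G : Type) (_ : Group G), Countable G ∧ Infinite G ∧
      (∀ g : G, g ^ p = 1) ∧ (∀ a b c : G, (a * b * a⁻¹ * b⁻¹) * c = c * (a * b * a⁻¹ * b⁻¹)) ∧
      SquareAbsCont G ∧ ∃ (A : Set G) (Φ : ℕ → Finset G), IsLeftFolner Φ ∧ IsRightFolner Φ ∧
        (∀ N, 1 / 2 - 1 / (p : ℝ) ≤ share Φ A N) ∧ 1 / 2 - 1 / (p : ℝ) ≤ upperDensity Φ A ∧
        PosUpperBanachDensity A ∧
        ∀ B : Set G, B.Infinite → ∀ t r : G, ¬ odot B ⊆ shift t r A := by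
    intro p hp hp2
    haveI : Fact p.Prime := ⟨hp⟩
    have hd : ∀ N, 1 / 2 - 1 / (p : ℝ) ≤ share (fun N => Φ (p := p) (N + 1)) A N :=
      fun N => density hp2 N
    have hu := upper (Ψ := fun N => Φ (p := p) (N + 1)) (S := A) (fun N => Φ_nonempty (N + 1)) hd
    have hp3 : 3 ≤ p := by
      have := hp.two_le
      omega
    have hP : (3 : ℝ) ≤ (p : ℝ) := by exact_mod_cast hp3
    have hpos : 0 < 1 / 2 - 1 / (p : ℝ) := by
      have : 1 / (p : ℝ) ≤ 1 / 3 := one_div_le_one_div_of_le (by norm_num) hP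
      linarith
    exact ⟨Gp p, inferInstance, inferInstance, inferInstance, exponent hp2, class_two, sac hp2, A,
      fun N => Φ (N + 1), shift_left, shift_right, hd, hu,
      ⟨_, shift_left, shift_right, lt_of_lt_of_le hpos hu⟩, no_infinite⟩
  refine ⟨fun p hp hp2 => ?_, fun ε hε => ?_⟩
  · obtain ⟨G, i, h1, h2, h3, h4, h5, A, Φ, h6, h7, h8, _, h10, h11⟩ := main p hp hp2
    exact ⟨G, i, h1, h2, h3, h4, h5, A, Φ, h6, h7, h8, h10, h11⟩
  · obtain ⟨n, hn⟩ := exists_nat_gt (1 / ε)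
    obtain ⟨p, hnp, hp⟩ := Nat.exists_infinite_primes (n + 3)
    obtain ⟨G, i, h1, h2, h3, h4, h5, A, Φ, h6, h7, h8, h9, h10, h11⟩ := main p hp (by omega)
    refine ⟨G, i, h1, h2, h5, A, Φ, h6, h7, ?_, h10, h11⟩
    refine le_trans ?_ h9
    have hnp' : (n : ℝ) ≤ (p : ℝ) := by exact_mod_cast (by omega : n ≤ p)
    have h12 : 1 / ε < (p : ℝ) := lt_of_lt_of_le hn hnp'
    have h13 : 1 / (p : ℝ) ≤ ε := by
      rw [div_lt_iff₀ hε] at h12
      have hpp : (0 : ℝ) < (p : ℝ) := by exact_mod_cast hp.pos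
      rw [div_le_iff₀ hpp]
      linarith
    linarith

end Pool.Agent.Results.MP_f087b4_co.DensityNearHalf
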